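import Pool.Agent.Lib.MP_95ac01_nt.Defs

/-!
# MP_95ac01_nt (S17823): basic lemmas, everything proved
-/

set_option autoImplicit false

namespace Cub

open Finset

noncomputable section

/-! ## Monomials -/

/-- The monomial `X_i X_j X_k`. -/
def mon3 (i j k : Fin 4) : Mon :=
  ⟨fun l => (if l = i then 1 else 0) + (if l = j then 1 else 0) + (if l = k then 1 else 0), by
    revert i j k; decide⟩

theorem card_mon : Fintype.card Mon = 20 := by decide

theorem exists_mon3 (m : Mon) : ∃ i j k, m = mon3 i j k := by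
  revert m; decide

theorem mon3_val (i j k l : Fin 4) : (((mon3 i j k).1 l : Fin 4) : ℕ) =
    (if l = i then 1 else 0) + (if l = j then 1 else 0) + (if l = k then 1 else 0) := by
  revert i j k l; decide

section ring
variable {R : Type*} [CommRing R]

theorem mv_mon3 (i j k : Fin 4) (x : Fin 4 → R) : mv (mon3 i j k) x = x i * x j * x k := by
  unfold mv
  simp only [mon3_val, pow_add, Finset.prod_mul_distrib]
  simp [pow_ite, Finset.prod_ite_eq']

theorem mv_smul (m : Mon) (t : R) (x : Fin 4 → R) : mv m (fun i => t * x i) = t ^ 3 * mv m x := by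
  obtain ⟨i, j, k, rfl⟩ := exists_mon3 m
  simp only [mv_mon3]; ring

theorem ev_smul_x (c : Mon → R) (t : R) (x : Fin 4 → R) :
    ev c (fun i => t * x i) = t ^ 3 * ev c x := by
  unfold ev
  rw [Finset.mul_sum]
  refine Finset.sum_congr rfl fun m _ => ?_
  rw [mv_smul]; ring

theorem ev_neg_x (c : Mon → R) (x : Fin 4 → R) : ev c (-x) = - ev c x := by
  have h := ev_smul_x c (-1) x
  have e : (fun i => (-1 : R) * x i) = -x := by funext i; simp
  rw [e] at h
  rw [h]; ring

theorem ev_add (c d : Mon → R) (x : Fin 4 → R) : ev (c + d) x = ev c x + ev d x := by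
  simp [ev, add_mul, Finset.sum_add_distrib]

theorem ev_sub (c d : Mon → R) (x : Fin 4 → R) : ev (c - d) x = ev c x - ev d x := by
  simp [ev, sub_mul, Finset.sum_sub_distrib]

theorem ev_neg (c : Mon → R) (x : Fin 4 → R) : ev (-c) x = - ev c x := by
  simp [ev]

theorem ev_zero (x : Fin 4 → R) : ev (0 : Mon → R) x = 0 := by
  simp [ev]

theorem ev_smul (t : R) (c : Mon → R) (x : Fin 4 → R) : ev (t • c) x = t * ev c x := by
  simp [ev, Finset.mul_sum, mul_assoc]

theorem ev_sum {ι : Type*} (s : Finset ι) (f : ι → Mon → R) (x : Fin 4 → R) :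
    ev (∑ i ∈ s, f i) x = ∑ i ∈ s, ev (f i) x := by
  classical
  induction s using Finset.induction_on with
  | empty => simp [ev_zero]
  | insert a s ha ih => rw [Finset.sum_insert ha, Finset.sum_insert ha, ev_add, ih]

theorem ev_single (m : Mon) (t : R) (x : Fin 4 → R) : ev (Pi.single m t) x = t * mv m x := by
  unfold ev
  rw [Finset.sum_eq_single m]
  · simp
  · intro b _ hb; simp [Pi.single_eq_of_ne hb]
  · simp

theorem pd_add (c d : Mon → R) (j : Fin 4) (x : Fin 4 → R) :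
    pd (c + d) j x = pd c j x + pd d j x := by
  simp [pd, add_mul, Finset.sum_add_distrib]

theorem pd_sub (c d : Mon → R) (j : Fin 4) (x : Fin 4 → R) :
    pd (c - d) j x = pd c j x - pd d j x := by
  simp [pd, sub_mul, Finset.sum_sub_distrib]

theorem pd_smul (t : R) (c : Mon → R) (j : Fin 4) (x : Fin 4 → R) :
    pd (t • c) j x = t * pd c j x := by
  simp [pd, Finset.mul_sum, mul_assoc]

/-! ## Products of three linear forms -/

/-- Coefficient vector of the product `(α·X)(β·X)(γ·X)`. -/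
def p3 (α β γ : Fin 4 → R) : Mon → R := fun m =>
  ∑ i, ∑ j, ∑ k, if mon3 i j k = m then α i * β j * γ k else 0

theorem p3_eq (α β γ : Fin 4 → R) :
    p3 α β γ = ∑ i, ∑ j, ∑ k, (α i * β j * γ k) • (Pi.single (mon3 i j k) (1 : R) : Mon → R) := by
  funext m
  simp only [p3, Finset.sum_apply, Pi.smul_apply, smul_eq_mul]
  refine Finset.sum_congr rfl fun i _ => Finset.sum_congr rfl fun j _ =>
    Finset.sum_congr rfl fun k _ => ?_
  by_cases h : mon3 i j k = m
  · subst h; simp
  · rw [if_neg h, Pi.single_eq_of_ne (Ne.symm h)]; simp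

theorem ev_p3 (α β γ : Fin 4 → R) (x : Fin 4 → R) :
    ev (p3 α β γ) x = dt α x * dt β x * dt γ x := by
  rw [p3_eq]
  simp only [ev_sum, ev_smul, ev_single, mv_mon3, dt]
  rw [Finset.sum_mul_sum, Finset.sum_mul]
  refine Finset.sum_congr rfl fun i _ => ?_
  rw [Finset.sum_mul]
  refine Finset.sum_congr rfl fun j _ => ?_
  rw [Finset.mul_sum]
  refine Finset.sum_congr rfl fun k _ => ?_
  ring

theorem p3_single (i j k : Fin 4) :
    p3 (Pi.single i (1 : R)) (Pi.single j (1 : R)) (Pi.single k (1 : R)) =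
      Pi.single (mon3 i j k) (1 : R) := by
  rw [p3_eq]
  rw [Finset.sum_eq_single i, Finset.sum_eq_single j, Finset.sum_eq_single k]
  · simp
  · intro b _ hb; simp [Pi.single_eq_of_ne hb]
  · simp
  · intro b _ hb; simp [Pi.single_eq_of_ne hb]
  · simp
  · intro b _ hb; simp [Pi.single_eq_of_ne hb]
  · simp

theorem p3_add_left (α α' β γ : Fin 4 → R) : p3 (α + α') β γ = p3 α β γ + p3 α' β γ := by
  simp only [p3_eq, Pi.add_apply, add_mul, add_smul, Finset.sum_add_distrib]

theorem p3_smul_left (t : R) (α β γ : Fin 4 → R) : p3 (t • α) β γ = t • p3 α β γ := by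
  simp only [p3_eq, Pi.smul_apply, smul_eq_mul, Finset.smul_sum, smul_smul, mul_assoc]

theorem p3_swap12 (α β γ : Fin 4 → R) : p3 α β γ = p3 β α γ := by
  have h : ∀ i j k : Fin 4, mon3 i j k = mon3 j i k := by decide
  simp only [p3_eq]
  rw [Finset.sum_comm]
  refine Finset.sum_congr rfl fun i _ => Finset.sum_congr rfl fun j _ =>
    Finset.sum_congr rfl fun k _ => ?_
  rw [h j i k, mul_comm (α j) (β i)]

theorem p3_swap23 (α β γ : Fin 4 → R) : p3 α β γ = p3 α γ β := by
  have h : ∀ i j k : Fin 4, mon3 i j k = mon3 i k j := by decide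
  simp only [p3_eq]
  refine Finset.sum_congr rfl fun i _ => ?_
  rw [Finset.sum_comm]
  refine Finset.sum_congr rfl fun j _ => Finset.sum_congr rfl fun k _ => ?_
  rw [h i k j, mul_assoc, mul_comm (β k) (γ j), ← mul_assoc]

theorem p3_add_mid (α β β' γ : Fin 4 → R) : p3 α (β + β') γ = p3 α β γ + p3 α β' γ := by
  rw [p3_swap12, p3_add_left, p3_swap12 β, p3_swap12 β']

theorem p3_smul_mid (t : R) (α β γ : Fin 4 → R) : p3 α (t • β) γ = t • p3 α β γ := by
  rw [p3_swap12, p3_smul_left, p3_swap12 β]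

theorem p3_add_right (α β γ γ' : Fin 4 → R) : p3 α β (γ + γ') = p3 α β γ + p3 α β γ' := by
  rw [p3_swap23, p3_add_mid, p3_swap23 α γ, p3_swap23 α γ']

theorem p3_smul_right (t : R) (α β γ : Fin 4 → R) : p3 α β (t • γ) = t • p3 α β γ := by
  rw [p3_swap23, p3_smul_mid, p3_swap23 α γ]

/-- Every form is the combination of the monomials. -/
theorem form_eq_sum (c : Mon → R) : c = ∑ m, c m • (Pi.single m (1 : R) : Mon → R) := by
  funext m
  simp only [Finset.sum_apply, Pi.smul_apply, smul_eq_mul]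
  rw [Finset.sum_eq_single m]
  · simp
  · intro b _ hb; rw [Pi.single_eq_of_ne (Ne.symm hb)]; simp
  · simp

end ring

theorem abs_p3_le (α β γ : Fin 4 → ℤ) (a b g : ℤ) (ha : ∀ i, |α i| ≤ a) (hb : ∀ i, |β i| ≤ b)
    (hg : ∀ i, |γ i| ≤ g) (m : Mon) : |p3 α β γ m| ≤ 64 * (a * b * g) := by
  have ha0 : 0 ≤ a := le_trans (abs_nonneg _) (ha 0)
  have hb0 : 0 ≤ b := le_trans (abs_nonneg _) (hb 0)
  have hg0 : 0 ≤ g := le_trans (abs_nonneg _) (hg 0)
  have key : ∀ i j k : Fin 4, |if mon3 i j k = m then α i * β j * γ k else 0| ≤ a * b * g := by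
    intro i j k
    split_ifs
    · rw [abs_mul, abs_mul]
      gcongr
      · exact ha i
      · exact hb j
      · exact hg k
    · simpa using by positivity
  unfold p3
  calc |∑ i, ∑ j, ∑ k, if mon3 i j k = m then α i * β j * γ k else 0|
      ≤ ∑ i : Fin 4, ∑ j : Fin 4, ∑ k : Fin 4, a * b * g := by
        refine (Finset.abs_sum_le_sum_abs _ _).trans (Finset.sum_le_sum fun i _ => ?_)
        refine (Finset.abs_sum_le_sum_abs _ _).trans (Finset.sum_le_sum fun j _ => ?_)
        exact (Finset.abs_sum_le_sum_abs _ _).trans (Finset.sum_le_sum fun k _ => key i j k)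
    _ = 64 * (a * b * g) := by simp; ring

/-! ## Casts -/

section cast
variable (R : Type*) [CommRing R]

theorem mv_cast (m : Mon) (x : Fin 4 → ℤ) : mv m (cx R x) = ((mv m x : ℤ) : R) := by
  simp [mv, cx]

theorem ev_cast (c : Mon → ℤ) (x : Fin 4 → ℤ) : ev (cc R c) (cx R x) = ((ev c x : ℤ) : R) := by
  simp [ev, cc, mv_cast]

theorem dmv_cast (m : Mon) (j : Fin 4) (x : Fin 4 → ℤ) :
    dmv m j (cx R x) = ((dmv m j x : ℤ) : R) := by
  simp [dmv, cx]

theorem pd_cast (c : Mon → ℤ) (j : Fin 4) (x : Fin 4 → ℤ) :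
    pd (cc R c) j (cx R x) = ((pd c j x : ℤ) : R) := by
  simp [pd, cc, dmv_cast]

theorem dt_cast (u x : Fin 4 → ℤ) : dt (cx R u) (cx R x) = ((dt u x : ℤ) : R) := by
  simp [dt, cx]

theorem mn_cast (x y : Fin 4 → ℤ) (i j : Fin 4) : mn (cx R x) (cx R y) i j = ((mn x y i j : ℤ) : R) := by
  simp [mn, cx]

end cast

/-- Ring homomorphisms. -/
theorem ev_map {R S : Type*} [CommRing R] [CommRing S] (f : R →+* S) (c : Mon → R) (x : Fin 4 → R) :
    ev (fun m => f (c m)) (fun i => f (x i)) = f (ev c x) := by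
  simp [ev, mv, map_sum, map_mul, map_prod, map_pow]

theorem pd_map {R S : Type*} [CommRing R] [CommRing S] (f : R →+* S) (c : Mon → R) (j : Fin 4)
    (x : Fin 4 → R) : pd (fun m => f (c m)) j (fun i => f (x i)) = f (pd c j x) := by
  simp [pd, dmv, map_sum, map_mul, map_prod, map_pow]

/-- Congruences: the value modulo an ideal depends on the argument modulo the ideal. -/
theorem ev_congr_mod (q : ℤ) (c d : Mon → ℤ) (x y : Fin 4 → ℤ) (hc : ∀ m, q ∣ c m - d m)
    (hx : ∀ i, q ∣ x i - y i) : q ∣ ev c x - ev d y := by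
  have h1 : ∀ m, q ∣ mv m x - mv m y := by
    intro m
    obtain ⟨i, j, k, rfl⟩ := exists_mon3 m
    simp only [mv_mon3]
    have : x i * x j * x k - y i * y j * y k =
        (x i - y i) * (x j * x k) + (x j - y j) * (y i * x k) + (x k - y k) * (y i * y j) := by ring
    rw [this]
    exact dvd_add (dvd_add ((hx i).mul_right _) ((hx j).mul_right _)) ((hx k).mul_right _)
  unfold ev
  rw [← Finset.sum_sub_distrib]
  refine Finset.dvd_sum fun m _ => ?_
  have : c m * mv m x - d m * mv m y = (c m - d m) * mv m x + (mv m x - mv m y) * d m := by ring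
  rw [this]
  exact dvd_add ((hc m).mul_right _) ((h1 m).mul_right _)

/-! ## One variable -/

section onevar
variable {R : Type*} [CommRing R]

/-- The form as a polynomial in the `j`-th variable. -/
def lin (c : Mon → R) (j : Fin 4) (x : Fin 4 → R) : Polynomial R :=
  ∑ m, Polynomial.C (c m * ∏ i ∈ univ.erase j, x i ^ ((m.1 i : Fin 4) : ℕ)) *
    Polynomial.X ^ ((m.1 j : Fin 4) : ℕ)

theorem mv_update (m : Mon) (j : Fin 4) (x : Fin 4 → R) (t : R) :
    mv m (Function.update x j t) =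
      t ^ ((m.1 j : Fin 4) : ℕ) * ∏ i ∈ univ.erase j, x i ^ ((m.1 i : Fin 4) : ℕ) := by
  unfold mv
  rw [← Finset.mul_prod_erase univ _ (Finset.mem_univ j)]
  congr 1
  · simp
  · refine Finset.prod_congr rfl fun i hi => ?_
    rw [Function.update_of_ne (Finset.ne_of_mem_erase hi)]

theorem dmv_update (m : Mon) (j : Fin 4) (x : Fin 4 → R) (t : R) :
    dmv m j (Function.update x j t) =
      ((m.1 j : Fin 4) : ℕ) * t ^ (((m.1 j : Fin 4) : ℕ) - 1) *
        ∏ i ∈ univ.erase j, x i ^ ((m.1 i : Fin 4) : ℕ) := by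
  unfold dmv
  congr 1
  · simp
  · refine Finset.prod_congr rfl fun i hi => ?_
    rw [Function.update_of_ne (Finset.ne_of_mem_erase hi)]

theorem lin_eval (c : Mon → R) (j : Fin 4) (x : Fin 4 → R) (t : R) :
    (lin c j x).eval t = ev c (Function.update x j t) := by
  unfold lin ev
  rw [Polynomial.eval_finsetSum]
  refine Finset.sum_congr rfl fun m _ => ?_
  rw [mv_update, Polynomial.eval_mul, Polynomial.eval_C, Polynomial.eval_pow, Polynomial.eval_X]
  ring

theorem lin_deriv (c : Mon → R) (j : Fin 4) (x : Fin 4 → R) (t : R) :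
    (Polynomial.derivative (lin c j x)).eval t = pd c j (Function.update x j t) := by
  unfold lin pd
  rw [Polynomial.derivative_sum, Polynomial.eval_finsetSum]
  refine Finset.sum_congr rfl fun m _ => ?_
  rw [dmv_update]
  rw [Polynomial.derivative_C_mul_X_pow, Polynomial.eval_mul, Polynomial.eval_C,
    Polynomial.eval_pow, Polynomial.eval_X]
  ring

theorem lin_eval_self (c : Mon → R) (j : Fin 4) (x : Fin 4 → R) :
    (lin c j x).eval (x j) = ev c x := by
  rw [lin_eval, Function.update_eq_self]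

theorem lin_deriv_self (c : Mon → R) (j : Fin 4) (x : Fin 4 → R) :
    (Polynomial.derivative (lin c j x)).eval (x j) = pd c j x := by
  rw [lin_deriv, Function.update_eq_self]

end onevar

theorem hasDerivAt_ev (c : Mon → ℝ) (j : Fin 4) (x : Fin 4 → ℝ) (t : ℝ) :
    HasDerivAt (fun t => ev c (Function.update x j t)) (pd c j (Function.update x j t)) t := by
  have h := (lin c j x).hasDerivAt t
  rw [lin_deriv] at h
  refine h.congr_of_eventuallyEq (Filter.Eventually.of_forall fun s => ?_)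
  exact (lin_eval c j x s).symm

/-! ## Boxes -/

theorem mem_box {H : ℕ} {c : Mon → ℤ} : c ∈ box H ↔ ∀ m, |c m| ≤ (H : ℤ) := by
  simp [box, Fintype.mem_piFinset, abs_le]

theorem card_box (H : ℕ) : (box H).card = (2 * H + 1) ^ 20 := by
  unfold box
  rw [Fintype.card_piFinset]
  simp only [Int.card_Icc, Finset.prod_const, Finset.card_univ, card_mon]
  congr 1; omega

theorem mem_cube {B : ℕ} {x : Fin 4 → ℤ} : x ∈ cube B ↔ ∀ i, |x i| ≤ (B : ℤ) := by
  simp [cube, Fintype.mem_piFinset, abs_le]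

theorem card_cube (B : ℕ) : (cube B).card = (2 * B + 1) ^ 4 := by
  unfold cube
  rw [Fintype.card_piFinset]
  simp only [Int.card_Icc, Finset.prod_const, Finset.card_univ, Fintype.card_fin]
  congr 1; omega

theorem mem_shell {B : ℕ} {x : Fin 4 → ℤ} :
    x ∈ shell B ↔ (∀ i, |x i| ≤ (B : ℤ)) ∧ Prim x ∧ ∃ i, (B : ℤ) < 2 * |x i| := by
  simp [shell, mem_cube]

theorem mem_G {A B : ℕ} {x : Fin 4 → ℤ} : x ∈ G A B ↔ x ∈ shell B ∧ Good A x := by
  simp [G]

theorem mem_mult {q W : ℕ} {r : ℤ} : r ∈ mult q W ↔ |r| ≤ (W : ℤ) ∧ (q : ℤ) ∣ r := by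
  simp [mult, abs_le]

theorem mult_nonempty (q W : ℕ) : (mult q W).Nonempty := ⟨0, by simp [mem_mult]⟩

/-! ## Sizes of vectors and minors -/

theorem sz_le {x : Fin 4 → ℤ} {B : ℕ} : sz x ≤ B ↔ ∀ i, |x i| ≤ (B : ℤ) := by
  simp only [sz, Finset.sup_le_iff, Finset.mem_univ, true_implies]
  refine forall_congr' fun i => ?_
  rw [← Int.natCast_natAbs]
  exact Int.ofNat_le.symm

theorem abs_le_sz (x : Fin 4 → ℤ) (i : Fin 4) : |x i| ≤ (sz x : ℤ) := sz_le.1 le_rfl i

theorem exists_sz (x : Fin 4 → ℤ) : ∃ i, |x i| = (sz x : ℤ) := by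
  obtain ⟨i, -, hi⟩ := Finset.exists_mem_eq_sup (univ : Finset (Fin 4)) Finset.univ_nonempty
    (fun i => (x i).natAbs)
  refine ⟨i, ?_⟩
  have : sz x = (x i).natAbs := hi
  rw [this]; simp

theorem wd_le {x y : Fin 4 → ℤ} {K : ℕ} : wd x y ≤ K ↔ ∀ i j, |mn x y i j| ≤ (K : ℤ) := by
  simp only [wd, Finset.sup_le_iff, Finset.mem_univ, true_implies, Prod.forall]
  refine forall_congr' fun i => forall_congr' fun j => ?_
  rw [← Int.natCast_natAbs]
  exact Int.ofNat_le.symm

theorem abs_mn_le (x y : Fin 4 → ℤ) (i j : Fin 4) : |mn x y i j| ≤ (wd x y : ℤ) := wd_le.1 le_rfl i j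

theorem exists_wd (x y : Fin 4 → ℤ) : ∃ i j, |mn x y i j| = (wd x y : ℤ) := by
  obtain ⟨p, -, hp⟩ := Finset.exists_mem_eq_sup (univ : Finset (Fin 4 × Fin 4))
    Finset.univ_nonempty (fun p => (mn x y p.1 p.2).natAbs)
  refine ⟨p.1, p.2, ?_⟩
  have : wd x y = (mn x y p.1 p.2).natAbs := hp
  rw [this]; simp

theorem wd_pos_iff (x y : Fin 4 → ℤ) : 0 < wd x y ↔ ∃ i j, mn x y i j ≠ 0 := by
  constructor
  · intro h
    obtain ⟨i, j, hij⟩ := exists_wd x y
    refine ⟨i, j, ?_⟩
    intro h0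
    rw [h0] at hij
    simp at hij
    omega
  · rintro ⟨i, j, hij⟩
    have := abs_mn_le x y i j
    have h2 : 0 < |mn x y i j| := abs_pos.2 hij
    omega

theorem gd_dvd (x y : Fin 4 → ℤ) (i j : Fin 4) : ((gd x y : ℕ) : ℤ) ∣ mn x y i j := by
  have h : gd x y ∣ (mn x y i j).natAbs :=
    Finset.gcd_dvd (f := fun p : Fin 4 × Fin 4 => (mn x y p.1 p.2).natAbs)
      (Finset.mem_univ ((i, j) : Fin 4 × Fin 4))
  exact Int.natCast_dvd.2 h

theorem dvd_gd {x y : Fin 4 → ℤ} {d : ℕ} (h : ∀ i j, (d : ℤ) ∣ mn x y i j) : d ∣ gd x y := by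
  unfold gd
  refine Finset.dvd_gcd fun p _ => ?_
  exact Int.natCast_dvd.1 (h p.1 p.2)

theorem gd_pos_iff (x y : Fin 4 → ℤ) : 0 < gd x y ↔ 0 < wd x y := by
  rw [wd_pos_iff, Nat.pos_iff_ne_zero, ne_eq]
  unfold gd
  rw [Finset.gcd_eq_zero_iff]
  simp only [Finset.mem_univ, true_implies, Prod.forall, Int.natAbs_eq_zero, not_forall, ne_eq]

theorem gd_dvd_wd (x y : Fin 4 → ℤ) : gd x y ∣ wd x y := by
  obtain ⟨i, j, hij⟩ := exists_wd x y
  have h := gd_dvd x y i j
  have h2 : ((gd x y : ℕ) : ℤ) ∣ ((wd x y : ℕ) : ℤ) := by rw [← hij]; exact (dvd_abs _ _).2 h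
  exact_mod_cast h2

theorem mn_swap {R : Type*} [CommRing R] (x y : Fin 4 → R) (i j : Fin 4) :
    mn x y j i = - mn x y i j := by simp [mn]

theorem wd_comm (x y : Fin 4 → ℤ) : wd x y = wd y x := by
  unfold wd
  congr 1
  funext p
  rw [← Int.natAbs_neg]
  congr 1
  simp [mn]; ring

theorem gd_comm (x y : Fin 4 → ℤ) : gd x y = gd y x := by
  unfold gd
  congr 1
  funext p
  rw [← Int.natAbs_neg]
  congr 1
  simp [mn]; ring

theorem wd_le_two_mul {B : ℕ} {x y : Fin 4 → ℤ} (hx : ∀ i, |x i| ≤ (B : ℤ))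
    (hy : ∀ i, |y i| ≤ (B : ℤ)) : wd x y ≤ 2 * B ^ 2 := by
  refine wd_le.2 fun i j => ?_
  unfold mn
  push_cast
  calc |x i * y j - x j * y i| ≤ |x i * y j| + |x j * y i| := abs_sub _ _
    _ ≤ B * B + B * B := by
      rw [abs_mul, abs_mul]
      have := hx i; have := hx j; have := hy i; have := hy j
      gcongr
    _ = 2 * (B : ℤ) ^ 2 := by ring

/-- A primitive vector divides every vector parallel to it. -/
theorem prim_dvd {x y : Fin 4 → ℤ} (hx : Prim x) (h : wd x y = 0) : ∃ k : ℤ, y = fun i => k * x i := by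
  obtain ⟨u, hu⟩ := hx
  refine ⟨dt u y, ?_⟩
  funext i
  have h0 : ∀ i j, mn x y i j = 0 := by
    intro i j
    have := abs_mn_le x y i j
    rw [h] at this
    simpa using this
  have h1 : ∀ j, x j * y i = y j * x i := by
    intro j
    have := h0 j i
    unfold mn at this
    linarith
  have : dt u y * x i = dt u x * y i := by
    unfold dt
    rw [Finset.sum_mul, Finset.sum_mul]
    refine Finset.sum_congr rfl fun j _ => ?_
    rw [mul_assoc, mul_assoc, h1 j]
  rw [this, hu, one_mul]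

theorem prim_parallel {x y : Fin 4 → ℤ} (hx : Prim x) (hy : Prim y) (h : wd x y = 0) :
    y = x ∨ y = -x := by
  obtain ⟨k, rfl⟩ := prim_dvd hx h
  obtain ⟨v, hv⟩ := hy
  have : k * dt v x = 1 := by
    rw [← hv]
    unfold dt
    rw [Finset.mul_sum]
    exact Finset.sum_congr rfl fun i _ => by ring
  rcases Int.isUnit_iff.1 (IsUnit.of_mul_eq_one _ this) with h1 | h1
  · left; funext i; simp [h1]
  · right; funext i; simp [h1]

theorem prim_ne_zero {x : Fin 4 → ℤ} (hx : Prim x) : x ≠ 0 := by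
  rintro rfl
  obtain ⟨u, hu⟩ := hx
  simp [dt] at hu

end

end Cub
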