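import Mathlib

/-!
# MP_95ac01_nt (S17823): definitions

Cubic forms in four variables are coefficient vectors `c : Mon → R`; `ev c x` is the value,
`pd c j x` the partial derivative.  See `Paper.md`.
-/

set_option autoImplicit false

namespace Cub

open Finset

noncomputable section

/-- Exponent vectors of the twenty monomials of degree 3 in four variables. -/
abbrev Mon : Type := {m : Fin 4 → Fin 4 // ∑ i, ((m i : Fin 4) : ℕ) = 3}

/-- Value of a monomial. -/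
def mv {R : Type*} [CommSemiring R] (m : Mon) (x : Fin 4 → R) : R := ∏ i, x i ^ ((m.1 i : Fin 4) : ℕ)

/-- Value at `x` of the cubic form with coefficient vector `c`. -/
def ev {R : Type*} [CommSemiring R] (c : Mon → R) (x : Fin 4 → R) : R := ∑ m, c m * mv m x

/-- Partial derivative of `mv m` with respect to the `j`-th variable. -/
def dmv {R : Type*} [CommSemiring R] (m : Mon) (j : Fin 4) (x : Fin 4 → R) : R :=
  ((m.1 j : Fin 4) : ℕ) * x j ^ (((m.1 j : Fin 4) : ℕ) - 1) *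
    ∏ i ∈ univ.erase j, x i ^ ((m.1 i : Fin 4) : ℕ)

/-- Partial derivative of the cubic form `c` with respect to the `j`-th variable, at `x`. -/
def pd {R : Type*} [CommSemiring R] (c : Mon → R) (j : Fin 4) (x : Fin 4 → R) : R :=
  ∑ m, c m * dmv m j x

/-- Dot product. -/
def dt {R : Type*} [CommSemiring R] (u x : Fin 4 → R) : R := ∑ i, u i * x i

/-- The `2 × 2` minors of the pair `(x, y)`. -/
def mn {R : Type*} [CommRing R] (x y : Fin 4 → R) (i j : Fin 4) : R := x i * y j - x j * y i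

/-- Coefficient vector in another ring. -/
def cc (R : Type*) [Ring R] (c : Mon → ℤ) : Mon → R := fun m => (c m : R)

/-- Vector in another ring. -/
def cx (R : Type*) [Ring R] (x : Fin 4 → ℤ) : Fin 4 → R := fun i => (x i : R)

/-- Sup norm of an integer vector. -/
def sz (x : Fin 4 → ℤ) : ℕ := univ.sup fun i => (x i).natAbs

/-- Sup norm of the `2 × 2` minors. -/
def wd (x y : Fin 4 → ℤ) : ℕ := univ.sup fun p : Fin 4 × Fin 4 => (mn x y p.1 p.2).natAbs

/-- Greatest common divisor of the `2 × 2` minors. -/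
def gd (x y : Fin 4 → ℤ) : ℕ := univ.gcd fun p : Fin 4 × Fin 4 => (mn x y p.1 p.2).natAbs

/-- Primitive integer vectors. -/
def Prim (x : Fin 4 → ℤ) : Prop := ∃ u : Fin 4 → ℤ, dt u x = 1

/-- Coefficient vectors of size at most `H`. -/
def box (H : ℕ) : Finset (Mon → ℤ) := Fintype.piFinset fun _ => Icc (-(H : ℤ)) H

/-- Integer vectors of size at most `B`. -/
def cube (B : ℕ) : Finset (Fin 4 → ℤ) := Fintype.piFinset fun _ => Icc (-(B : ℤ)) B

open Classical in
/-- Primitive vectors with `B/2 < |x| ≤ B`. -/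
def shell (B : ℕ) : Finset (Fin 4 → ℤ) :=
  (cube B).filter fun x => Prim x ∧ ∃ i, (B : ℤ) < 2 * |x i|

/-- `x` is orthogonal to three linearly independent integer vectors of size at most `A`. -/
def Good (A : ℕ) (x : Fin 4 → ℤ) : Prop :=
  ∃ l : Fin 3 → Fin 4 → ℤ, LinearIndependent ℤ l ∧ (∀ a, dt (l a) x = 0) ∧
    ∀ a i, |l a i| ≤ (A : ℤ)

open Classical in
/-- The good points of the shell. -/
def G (A B : ℕ) : Finset (Fin 4 → ℤ) := (shell B).filter (Good A)

open Classical in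
/-- The bad points of the shell. -/
def badSet (A B : ℕ) : Finset (Fin 4 → ℤ) := (shell B).filter fun x => ¬ Good A x

/-- Number of forms of size at most `t` with value `r` at `x`. -/
def n1 (x : Fin 4 → ℤ) (r : ℤ) (t : ℕ) : ℕ := ((box t).filter fun c => ev c x = r).card

/-- Number of forms of size at most `t` with value `r` at `x` and `s` at `y`. -/
def n2 (x y : Fin 4 → ℤ) (r s : ℤ) (t : ℕ) : ℕ :=
  ((box t).filter fun c => ev c x = r ∧ ev c y = s).card

/-- Number of good points on the surface `c = 0`. -/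
def Nf (A B : ℕ) (c : Mon → ℤ) : ℕ := ((G A B).filter fun x => ev c x = 0).card

/-- Multiples of `q` of absolute value at most `W`. -/
def mult (q W : ℕ) : Finset ℤ := (Icc (-(W : ℤ)) W).filter fun r => (q : ℤ) ∣ r

/-- The localised count. -/
def Mf (A B q W : ℕ) (c : Mon → ℤ) : ℝ :=
  (((G A B).filter fun x => ev c x ∈ mult q W).card : ℝ) / ((mult q W).card : ℝ)

/-- Set `{mn x z : z}` of bivectors divisible by `x`, of size at most `t`. -/
def Lx (x : Fin 4 → ℤ) (P : Fin 4 → Fin 4 → ℤ) : Prop := ∃ z : Fin 4 → ℤ, P = mn x z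

/-- Size of a bivector. -/
def bz (P : Fin 4 → Fin 4 → ℤ) : ℕ := univ.sup fun p : Fin 4 × Fin 4 => (P p.1 p.2).natAbs

open Classical in
/-- Bivectors divisible by `x`, of size at most `t`. -/
def LxF (x : Fin 4 → ℤ) (t : ℕ) : Finset (Fin 4 → Fin 4 → ℤ) :=
  (Fintype.piFinset fun _ => Fintype.piFinset fun _ => Icc (-(t : ℤ)) t).filter (Lx x)

/-- A nontrivial rational zero. -/
def RatZ (c : Mon → ℤ) : Prop := ∃ x : Fin 4 → ℚ, x ≠ 0 ∧ ev (cc ℚ c) x = 0

/-- A nontrivial real zero. -/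
def RealZ (c : Mon → ℤ) : Prop := ∃ x : Fin 4 → ℝ, x ≠ 0 ∧ ev (cc ℝ c) x = 0

/-- A nontrivial `p`-adic zero. -/
def PadZ (p : ℕ) [Fact p.Prime] (c : Mon → ℤ) : Prop :=
  ∃ x : Fin 4 → ℚ_[p], x ≠ 0 ∧ ev (cc ℚ_[p] c) x = 0

/-- Everywhere locally soluble. -/
def LocZ (c : Mon → ℤ) : Prop := RealZ c ∧ ∀ (p : ℕ) [Fact p.Prime], PadZ p c

open Classical in
/-- Forms in the box with a rational zero. -/
def ratSet (H : ℕ) : Finset (Mon → ℤ) := (box H).filter RatZ

open Classical in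
/-- Everywhere locally soluble forms in the box. -/
def locSet (H : ℕ) : Finset (Mon → ℤ) := (box H).filter LocZ

/-- Real local condition: a zero on the unit sphere where some partial derivative is `≥ κ H`. -/
def RC (κ : ℝ) (H : ℕ) (c : Mon → ℤ) : Prop :=
  ∃ ξ : Fin 4 → ℝ, (∀ i, |ξ i| ≤ 1) ∧ (∃ i, |ξ i| = 1) ∧ ev (cc ℝ c) ξ = 0 ∧
    ∃ j, κ * H ≤ |pd (cc ℝ c) j ξ|

/-- `p`-adic local condition of level `e`. -/
def PC (p e : ℕ) (c : Mon → ℤ) : Prop :=
  ∃ a : Fin 4 → ℤ, (∃ i, ¬ (p : ℤ) ∣ a i) ∧ (∃ j, ¬ (p : ℤ) ^ (e + 1) ∣ pd c j a) ∧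
    (p : ℤ) ^ (2 * e + 1) ∣ ev c a

/-- Vectors with entries in `[0, Q)`. -/
def resid (Q : ℕ) : Finset (Fin 4 → ℤ) := Fintype.piFinset fun _ => Ico (0 : ℤ) Q

/-- Unimodular modulo `Q`. -/
def UMod (Q : ℕ) (a : Fin 4 → ℤ) : Prop := ∃ u : Fin 4 → ℤ, (Q : ℤ) ∣ dt u a - 1

open Classical in
/-- The unimodular solutions of `c = 0` modulo `Q`. -/
def solSet (Q : ℕ) (c : Mon → ℤ) : Finset (Fin 4 → ℤ) :=
  (resid Q).filter fun a => UMod Q a ∧ (Q : ℤ) ∣ ev c a

/-- Number of unimodular solutions of `c = 0` modulo `Q`. -/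
def sol (Q : ℕ) (c : Mon → ℤ) : ℕ := (solSet Q c).card

/-- Local condition at the larger primes. -/
def SC (Q : ℕ) (c : Mon → ℤ) : Prop := Q ^ 3 ≤ 2 * sol Q c

/-- `∏_{a < p ≤ b} p^K`. -/
def qq (a b K : ℕ) : ℕ := ∏ p ∈ (Ioc a b).filter Nat.Prime, p ^ K

/-- `A = ⌊H^0.4⌋`. -/
def Af (H : ℕ) : ℕ := ⌊(H : ℝ) ^ (0.4 : ℝ)⌋₊

/-- `B = ⌊H^1.02⌋`. -/
def Bf (H : ℕ) : ℕ := ⌊(H : ℝ) ^ (1.02 : ℝ)⌋₊

end

end Cub
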