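import Pool.Agent.Lib.MP_95ac01_nt.Base

/-!
# MP_95ac01_nt (S17823): statements of the modules

Every module proves one of these `Prop`s from some others; see `Paper.md` for the proofs.
-/

set_option autoImplicit false

namespace Cub

open Finset Filter

noncomputable section

/-! ## Section 1: lattices -/

/-- LIN. -/
def LinStatement : Prop :=
  ∀ (l : Fin 3 → Fin 4 → ℤ) (x : Fin 4 → ℤ), LinearIndependent ℤ l → (∀ a, dt (l a) x = 0) →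
    x ≠ 0 →
    (∀ α : Fin 4 → ℝ, dt α (cx ℝ x) = 0 →
      α ∈ Submodule.span ℝ (Set.range fun a => cx ℝ (l a))) ∧
    (∀ z : Fin 4 → ℤ, (∀ a, dt (l a) z = 0) → wd x z = 0)

/-- SPAN2 (uses LIN). -/
def Span2Statement : Prop :=
  ∀ (A : ℕ) (x y : Fin 4 → ℤ), Good A x → Good A y → 0 < wd x y →
    ∃ (r : ℕ) (v : Fin r → Mon → ℤ), r ≤ 20 ∧ LinearIndependent ℝ (fun k => cc ℝ (v k)) ∧
      (∀ k, ev (v k) x = 0 ∧ ev (v k) y = 0) ∧ (∀ k m, |v k m| ≤ 64 * (A : ℤ) ^ 2) ∧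
      ∀ g : Mon → ℝ, ev g (cx ℝ x) = 0 → ev g (cx ℝ y) = 0 →
        g ∈ Submodule.span ℝ (Set.range fun k => cc ℝ (v k))

/-- SPAN1 (uses LIN). -/
def Span1Statement : Prop :=
  ∀ (A : ℕ) (x : Fin 4 → ℤ), Good A x → x ≠ 0 →
    ∃ (r : ℕ) (v : Fin r → Mon → ℤ), r ≤ 20 ∧ LinearIndependent ℝ (fun k => cc ℝ (v k)) ∧
      (∀ k, ev (v k) x = 0) ∧ (∀ k m, |v k m| ≤ 64 * (A : ℤ) ^ 2) ∧
      ∀ g : Mon → ℝ, ev g (cx ℝ x) = 0 →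
        g ∈ Submodule.span ℝ (Set.range fun k => cc ℝ (v k))

/-- COV2 (uses SPAN2). -/
def Cov2Statement : Prop :=
  ∀ (A : ℕ) (x y : Fin 4 → ℤ), Good A x → Good A y → 0 < wd x y →
    ∀ (g : Mon → ℝ) (c : Mon → ℤ) (b : ℝ), ev g (cx ℝ x) = ((ev c x : ℤ) : ℝ) →
      ev g (cx ℝ y) = ((ev c y : ℤ) : ℝ) → (∀ m, |g m| ≤ b) →
      ∃ c' : Mon → ℤ, ev c' x = ev c x ∧ ev c' y = ev c y ∧
        ∀ m, |(c' m : ℝ)| ≤ b + 1280 * (A : ℝ) ^ 2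

/-- COV1 (uses SPAN1). -/
def Cov1Statement : Prop :=
  ∀ (A : ℕ) (x : Fin 4 → ℤ), Good A x → x ≠ 0 →
    ∀ (g : Mon → ℝ) (c : Mon → ℤ) (b : ℝ), ev g (cx ℝ x) = ((ev c x : ℤ) : ℝ) →
      (∀ m, |g m| ≤ b) →
      ∃ c' : Mon → ℤ, ev c' x = ev c x ∧ ∀ m, |(c' m : ℝ)| ≤ b + 1280 * (A : ℝ) ^ 2

open Classical in
/-- REG. -/
def RegStatement : Prop :=
  ∀ (r V : ℕ) (v : Fin r → Mon → ℤ) (L : AddSubgroup (Mon → ℤ)),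
    LinearIndependent ℝ (fun k => cc ℝ (v k)) → (∀ k m, |v k m| ≤ (V : ℤ)) → (∀ k, v k ∈ L) →
    (∀ c ∈ L, cc ℝ c ∈ Submodule.span ℝ (Set.range fun k => cc ℝ (v k))) →
    ∀ s t : ℕ, r * V ≤ s →
      (((box t).filter (· ∈ L)).card : ℝ) * ((s : ℝ) - r * V) ^ r ≤
        (((box s).filter (· ∈ L)).card : ℝ) * ((t : ℝ) + r * V) ^ r

/-- REG2 (uses REG, SPAN2). -/
def Reg2Statement : Prop :=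
  ∀ (A : ℕ) (x y : Fin 4 → ℤ), Good A x → Good A y → 0 < wd x y →
    ∀ s t : ℕ, 1280 * A ^ 2 ≤ s → s ≤ t →
      (n2 x y 0 0 t : ℝ) * ((s : ℝ) - 1280 * (A : ℝ) ^ 2) ^ 20 ≤
        (n2 x y 0 0 s : ℝ) * ((t : ℝ) + 1280 * (A : ℝ) ^ 2) ^ 20

/-- MINOR. -/
def MinorStatement : Prop :=
  ∃ C : ℕ, ∀ (B : ℕ) (x y : Fin 4 → ℤ), x ∈ shell B → y ∈ shell B →
    ∃ m m' : Mon, (B : ℤ) ^ 4 * (wd x y : ℤ) ≤ C * |mv m x * mv m' y - mv m' x * mv m y|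

/-- DIV. -/
def DivStatement : Prop :=
  ∀ x y : Fin 4 → ℤ, Prim x → Prim y → 0 < wd x y →
    ∃ κ : ℤ, (∀ c : Mon → ℤ, (gd x y : ℤ) ∣ ev c y - κ * ev c x) ∧
      ∀ r s : ℤ, (gd x y : ℤ) ∣ s - κ * r → ∃ c : Mon → ℤ, ev c x = r ∧ ev c y = s

/-! ## Section 2: upper bounds -/

/-- UPPER2 (uses COV2, MINOR, DIV). -/
def Upper2Statement : Prop :=
  ∃ C : ℕ, ∀ (A B H : ℕ) (x y : Fin 4 → ℤ), x ∈ G A B → y ∈ G A B → 0 < wd x y →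
    C * A ^ 2 ≤ H → ∀ r s : ℤ, n2 x y r s H * (B ^ 4 * wd x y) ≤ C * H ^ 18 * gd x y

/-- UPPER1 (uses COV1). -/
def Upper1Statement : Prop :=
  ∃ C : ℕ, ∀ (A B H : ℕ) (x : Fin 4 → ℤ), x ∈ G A B → C * A ^ 2 ≤ H →
    ∀ r : ℤ, n1 x r H * B ^ 3 ≤ C * H ^ 19

/-- MAIN2 (uses COV2, REG2, MINOR, DIV, UPPER2). -/
def Main2Statement : Prop :=
  ∃ C : ℕ, ∀ (A B H T W : ℕ) (x y : Fin 4 → ℤ), x ∈ G A B → y ∈ G A B → 0 < wd x y →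
    C * A ^ 2 ≤ H → B ^ 2 ≤ T * wd x y → C * T * W ≤ H * B ^ 3 →
    ∀ r s : ℤ, |r| ≤ (W : ℤ) → |s| ≤ (W : ℤ) → (gd x y : ℤ) ∣ r → (gd x y : ℤ) ∣ s →
      |(n2 x y r s H : ℝ) - n2 x y 0 0 H| * ((B : ℝ) ^ 4 * wd x y) ≤
        C * (H : ℝ) ^ 18 * gd x y * (T * W / (H * (B : ℝ) ^ 3) + (A : ℝ) ^ 2 / H)

/-- N1LOW. -/
def N1LowStatement : Prop :=
  ∀ (B H : ℕ) (x : Fin 4 → ℤ), 1 ≤ B → 1 ≤ H → (∀ i, |x i| ≤ (B : ℤ)) →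
    H ^ 19 ≤ 21 * B ^ 3 * n1 x 0 H

/-! ## Section 3: pairs and the variance -/

/-- LX (uses LIN). -/
def LxStatement : Prop :=
  ∃ C : ℕ, ∀ (A B : ℕ) (x : Fin 4 → ℤ), x ∈ G A B →
    (∀ P, Lx x P → P ≠ 0 → B ≤ 8 * A * bz P) ∧
    (∀ t : ℕ, B ≤ 8 * A * t → (LxF x t).card * B ^ 3 ≤ C * (A * t) ^ 3) ∧
    (∀ t : ℕ, B ≤ t → (LxF x t).card * B ^ 2 ≤ C * t ^ 3)

/-- LXSUM (uses LX). -/
def LxSumStatement : Prop :=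
  ∃ C : ℝ, 0 < C ∧ ∀ (A B : ℕ) (x : Fin 4 → ℤ), x ∈ G A B → ∀ h : ℕ,
    ∑ P ∈ (LxF x h).filter (fun P => P ≠ 0), 1 / (bz P : ℝ) ^ 2 ≤
      C * ((A : ℝ) ^ 3 + h) / (B : ℝ) ^ 2

/-- PAIRSUM (uses LXSUM). -/
def PairSumStatement : Prop :=
  ∃ C : ℝ, 0 < C ∧ ∀ (A B : ℕ) (x : Fin 4 → ℤ), x ∈ G A B → ∀ h : ℕ,
    ∑ y ∈ (G A B).filter (fun y => 0 < wd x y ∧ wd x y ≤ h * gd x y), (gd x y : ℝ) / wd x y ≤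
      C * ((A : ℝ) ^ 3 + h)

/-- VAR (uses UPPER1, UPPER2, MAIN2, PAIRSUM). -/
def VarStatement : Prop :=
  ∃ C : ℕ, ∀ A B H T q W : ℕ, 1 ≤ T → (∀ d, 1 ≤ d → d ≤ 2 * T → d ∣ q) → C * A ^ 2 ≤ H →
    C * T * W ≤ H * B ^ 3 →
    ∑ c ∈ box H, ((Nf A B c : ℝ) - Mf A B q W c) ^ 2 ≤
      C * (H : ℝ) ^ 18 * (B : ℝ) ^ 2 *
        (1 / T + T * W / (H * (B : ℝ) ^ 3) + (A : ℝ) ^ 2 / H + (A : ℝ) ^ 3 / (B : ℝ) ^ 2 + H / B)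

/-- SECMOM: second moment of `Nf` (uses UPPER1, UPPER2, PAIRSUM). -/
def SecMomStatement : Prop :=
  ∃ C : ℕ, ∀ A B H : ℕ, C * A ^ 2 ≤ H →
    ∑ c ∈ box H, (Nf A B c : ℝ) ^ 2 ≤
      C * (H : ℝ) ^ 18 * (B : ℝ) ^ 2 * (1 + (A : ℝ) ^ 3 / (B : ℝ) ^ 2 + H / B)

/-! ## Section 4: bad points, positive proportion -/

/-- BAD1. -/
def Bad1Statement : Prop :=
  ∀ (A B : ℕ) (x : Fin 4 → ℤ), 1 ≤ A → 1 ≤ B → (∀ i, |x i| ≤ (B : ℤ)) →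
    A ^ 3 ≤ 5 * B * ((cube A).filter fun v => dt v x = 0).card

/-- BAD2 (uses BAD1). -/
def Bad2Statement : Prop :=
  ∃ C : ℕ, ∀ (A B : ℕ) (x : Fin 4 → ℤ), 1 ≤ A → A ≤ B → 100 * B ≤ A ^ 3 → x ∈ shell B →
    ¬ Good A x →
    (∃ u : Fin 4 → ℤ, u ≠ 0 ∧ dt u x = 0 ∧ sz u * A ^ 2 ≤ C * B) ∨
    (∃ u l : Fin 4 → ℤ, dt u x = 0 ∧ dt l x = 0 ∧ 0 < wd u l ∧ wd u l * A ≤ C * B)

/-- BAD3. -/
def Bad3Statement : Prop :=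
  ∀ x u l : Fin 4 → ℤ, Prim x → dt u x = 0 → dt l x = 0 → ∃ z : Fin 4 → ℤ, wd x z = wd u l

open Classical in
/-- BAD4. -/
def Bad4Statement : Prop :=
  ∃ C : ℕ, ∀ B K : ℕ, 1 ≤ B → 1 ≤ K →
    ((cube B).filter fun x => ∃ z : Fin 4 → ℤ, 0 < wd x z ∧ wd x z ≤ K).card ≤ C * B ^ 2 * K ^ 3

/-- BAD (uses BAD2, BAD3, BAD4). -/
def BadStatement : Prop :=
  ∃ C : ℝ, 0 < C ∧ ∀ A B : ℕ, 1 ≤ A → A ≤ B → 100 * B ≤ A ^ 3 →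
    ((badSet A B).card : ℝ) ≤
      C * ((B : ℝ) ^ 5 / (A : ℝ) ^ 3 + ((B : ℝ) / (A : ℝ) ^ 2 + 1) ^ 4 * (B : ℝ) ^ 3)

/-- ASY: the asymptotic facts about `Af`, `Bf`. -/
def AsyStatement : Prop :=
  Tendsto (fun H : ℕ => (Af H : ℝ)) atTop atTop ∧
  Tendsto (fun H : ℕ => (Bf H : ℝ)) atTop atTop ∧
  Tendsto (fun H : ℕ => (Af H : ℝ) ^ 2 / H) atTop (nhds 0) ∧
  Tendsto (fun H : ℕ => (H : ℝ) / Bf H) atTop (nhds 0) ∧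
  Tendsto (fun H : ℕ => (Af H : ℝ) ^ 3 / (Bf H : ℝ) ^ 2) atTop (nhds 0) ∧
  Tendsto (fun H : ℕ => (Bf H : ℝ) / (Af H : ℝ) ^ 3) atTop (nhds 0) ∧
  Tendsto (fun H : ℕ => (Bf H : ℝ) ^ 3 / (Af H : ℝ) ^ 8) atTop (nhds 0) ∧
  ∀ᶠ H : ℕ in atTop, Af H ≤ Bf H

/-- BADASY (uses BAD, ASY): the bad points are negligible. -/
def BadAsyStatement : Prop :=
  Tendsto (fun H : ℕ => ((badSet (Af H) (Bf H)).card : ℝ) / (Bf H : ℝ) ^ 4) atTop (nhds 0)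

/-- POS (uses SECMOM, N1LOW, REGION, BADASY, ASY). -/
def PosStatement : Prop :=
  ∃ c : ℝ, 0 < c ∧ ∀ᶠ H : ℕ in atTop, c * (2 * (H : ℝ) + 1) ^ 20 ≤ ((ratSet H).card : ℝ)

/-! ## Section 5: local conditions -/

/-- REALZERO. -/
def RealZeroStatement : Prop :=
  ∀ c : Mon → ℝ, ∃ ξ : Fin 4 → ℝ, (∀ i, |ξ i| ≤ 1) ∧ (∃ i, |ξ i| = 1) ∧ ev c ξ = 0

open Classical in
/-- FIBRE. -/
def FibreStatement : Prop :=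
  ∀ (R : Type) [CommRing R] (a : Fin 4 → R) (i : Fin 4) (D : Set R) (N H : ℕ), a i = 1 →
    (∀ t : R, ((Icc (-(H : ℤ)) H).filter fun n => (n : R) + t ∈ D).card ≤ N) →
    ((box H).filter fun c => ev (cc R c) a ∈ D ∧ ∀ j, j ≠ i → pd (cc R c) j a ∈ D).card ≤
      (2 * H + 1) ^ 16 * N ^ 4

open Classical in
/-- REALEXC (uses REALZERO, FIBRE). -/
def RealExcStatement : Prop :=
  ∃ C : ℝ, 0 < C ∧ ∀ κ : ℝ, 0 < κ → κ ≤ 1 → ∀ᶠ H : ℕ in atTop,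
    (((box H).filter fun c => ¬ RC κ H c).card : ℝ) ≤ C * κ * (2 * (H : ℝ) + 1) ^ 20

/-- PADAPPROX. -/
def PadApproxStatement : Prop :=
  ∀ (p : ℕ) [Fact p.Prime] (e : ℕ) (c : Mon → ℤ), PadZ p c → ¬ PC p e c →
    ∃ (i : Fin 4) (a : Fin 4 → ℤ), a i = 1 ∧ (∀ k, 0 ≤ a k ∧ a k < (p : ℤ) ^ (e + 1)) ∧
      (p : ℤ) ^ (e + 1) ∣ ev c a ∧ ∀ j, (p : ℤ) ^ (e + 1) ∣ pd c j a

open Classical in
/-- PADEXC (uses PADAPPROX, FIBRE). -/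
def PadExcStatement : Prop :=
  ∀ ε : ℝ, 0 < ε → ∀ w : ℕ, ∃ e : ℕ, ∀ᶠ H : ℕ in atTop,
    (((box H).filter fun c => LocZ c ∧ ¬ ∀ p : ℕ, p.Prime → p ≤ w → PC p e c).card : ℝ) ≤
      ε * (2 * (H : ℝ) + 1) ^ 20

/-- HENSEL. -/
def HenselStatement : Prop :=
  ∀ (p e K : ℕ) (c : Mon → ℤ), p.Prime → PC p e c → 2 * e + 1 ≤ K →
    p ^ (3 * K) ≤ p ^ (3 * (2 * e + 1)) * sol (p ^ K) c

/-- CRT. -/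
def CrtStatement : Prop :=
  ∀ (Q₁ Q₂ : ℕ) (c : Mon → ℤ), 1 ≤ Q₁ → 1 ≤ Q₂ → Nat.Coprime Q₁ Q₂ →
    sol Q₁ c * sol Q₂ c ≤ sol (Q₁ * Q₂) c

/-- SOLLOW (uses HENSEL, CRT). -/
def SolLowStatement : Prop :=
  ∀ w₁ e : ℕ, ∃ c' : ℝ, 0 < c' ∧ ∀ (w K : ℕ) (c : Mon → ℤ), w₁ ≤ w → 2 * e + 1 ≤ K →
    (∀ p : ℕ, p.Prime → p ≤ w₁ → PC p e c) → SC (qq w₁ w K) c →
    c' * (qq 0 w K : ℝ) ^ 3 ≤ (sol (qq 0 w K) c : ℝ)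

open Classical in
/-- The unimodular residues. -/
def primRes (Q : ℕ) : Finset (Fin 4 → ℤ) := (resid Q).filter (UMod Q)

/-- Residue classes of forms. -/
def resC (Q : ℕ) : Finset (Mon → ℤ) := Fintype.piFinset fun _ => Ico (0 : ℤ) Q

/-- BP1: every congruence `c(a) = 0`, `a` unimodular, has `Q^19` solutions. -/
def Bp1Statement : Prop :=
  ∀ (Q : ℕ) (a : Fin 4 → ℤ), 1 ≤ Q → UMod Q a →
    ((resC Q).filter fun c => (Q : ℤ) ∣ ev c a).card = Q ^ 19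

/-- BP2: most residues are unimodular. -/
def Bp2Statement : Prop :=
  ∀ Q w : ℕ, 1 ≤ Q → 1 ≤ w → (∀ p : ℕ, p.Prime → p ∣ Q → w < p) →
    (Q : ℝ) ^ 4 * (1 - 1 / w) ≤ ((primRes Q).card : ℝ)

/-- BP3: pairs of congruences. -/
def Bp3Statement : Prop :=
  ∀ (Q : ℕ) (a b : Fin 4 → ℤ), 1 ≤ Q → UMod Q a → UMod Q b →
    ((resC Q).filter fun c => (Q : ℤ) ∣ ev c a ∧ (Q : ℤ) ∣ ev c b).card ≤
      Q ^ 18 * Nat.gcd Q (gd a b)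

/-- BP4: average of the gcd. -/
def Bp4Statement : Prop :=
  ∀ (Q w : ℕ) (a : Fin 4 → ℤ), 1 ≤ Q → 1 ≤ w → (∀ p : ℕ, p.Prime → p ∣ Q → w < p) → UMod Q a →
    ∑ b ∈ primRes Q, ((Nat.gcd Q (gd a b) : ℕ) : ℝ) ≤ (Q : ℝ) ^ 4 * (1 + 1 / w)

open Classical in
/-- BIGP (uses BP1, BP2, BP3, BP4). -/
def BigPStatement : Prop :=
  ∃ C : ℕ, ∀ w Q H : ℕ, 1 ≤ w → 1 ≤ Q → (∀ p : ℕ, p.Prime → p ∣ Q → w < p) → Q ≤ H →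
    ((box H).filter fun c => ¬ SC Q c).card * w ≤ C * (2 * H + 1) ^ 20

/-- REGA: the analytic part of REGION. -/
def RegAStatement : Prop :=
  ∀ κ : ℝ, 0 < κ → ∃ ρ η : ℝ, 0 < ρ ∧ ρ ≤ 1 / 8 ∧ 0 < η ∧ η ≤ 1 / 16 ∧
    ∀ (g : Mon → ℝ) (ξ : Fin 4 → ℝ) (j : Fin 4), (∀ m, |g m| ≤ 1) → (∀ i, |ξ i| ≤ 1) →
      ev g ξ = 0 → κ ≤ |pd g j ξ| →
      ∀ y : Fin 4 → ℝ, (∀ l, l ≠ j → |y l - ξ l| ≤ ρ) →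
        ∃ s₀ : ℝ, |s₀ - ξ j| ≤ 1 / 16 ∧ ∀ δ : ℝ, 0 < δ → δ ≤ 1 → ∀ s : ℝ, |s - s₀| ≤ η * δ →
          |ev g (Function.update y j s)| ≤ δ

open Classical in
/-- REGC: the counting part of REGION. -/
def RegCStatement : Prop :=
  ∃ C : ℝ, 0 < C ∧ ∀ (j : Fin 4) (q L₁ L₂ B : ℕ) (a α : Fin 4 → ℤ) (β : (Fin 4 → ℤ) → ℤ),
    1 ≤ q → 40 ≤ L₂ → L₂ ≤ L₁ → UMod q a → (∀ x t, β (Function.update x j t) = β x) →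
    (∀ x : Fin 4 → ℤ, (∀ l, l ≠ j → α l ≤ x l ∧ x l < α l + q * L₁) →
      β x ≤ x j → x j < β x + q * L₂ → x ∈ cube B ∧ x ≠ 0) →
    ((L₁ : ℝ) ^ 3 * L₂) / 2 - C * (B : ℝ) ^ 4 / (L₂ : ℝ) ^ 3 ≤
      (((cube B).filter fun x => Prim x ∧ (∀ i, (q : ℤ) ∣ x i - a i) ∧
        (∀ l, l ≠ j → α l ≤ x l ∧ x l < α l + q * L₁) ∧ β x ≤ x j ∧ x j < β x + q * L₂).card : ℝ)

open Classical in
/-- REGION (uses REGA, REGC). -/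
def RegionStatement : Prop :=
  ∀ κ : ℝ, 0 < κ → ∃ c₂ : ℝ, 0 < c₂ ∧ ∀ δ : ℝ, 0 < δ → δ ≤ 1 → ∀ q : ℕ, 1 ≤ q →
    ∃ B₀ : ℕ, ∀ B : ℕ, B₀ ≤ B → ∀ (g : Mon → ℝ) (ξ : Fin 4 → ℝ) (a : Fin 4 → ℤ),
      (∀ m, |g m| ≤ 1) → (∀ i, |ξ i| ≤ 1) → (∃ i, |ξ i| = 1) → ev g ξ = 0 →
      (∃ j, κ ≤ |pd g j ξ|) → UMod q a →
      c₂ * δ * ((B : ℝ) / q) ^ 4 ≤
        (((shell B).filter fun x => (∀ i, (q : ℤ) ∣ x i - a i) ∧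
          |ev g (cx ℝ x)| ≤ δ * (B : ℝ) ^ 3).card : ℝ)

/-- MLOW (uses SOLLOW, REGION, BADASY, ASY). -/
def MLowStatement : Prop :=
  ∀ κ : ℝ, 0 < κ → ∀ w₁ e : ℕ, ∃ c₀ : ℝ, 0 < c₀ ∧ ∀ δ : ℝ, 0 < δ → δ ≤ 1 →
    ∀ w K : ℕ, w₁ ≤ w → 2 * e + 1 ≤ K → ∀ᶠ H : ℕ in atTop, ∀ c ∈ box H,
      RC κ H c → (∀ p : ℕ, p.Prime → p ≤ w₁ → PC p e c) → SC (qq w₁ w K) c →
      c₀ * Bf H / H ≤ Mf (Af H) (Bf H) (qq 0 w K) ⌊δ * H * (Bf H : ℝ) ^ 3⌋₊ c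

/-- DIVQ. -/
def DivQStatement : Prop := ∀ w K d : ℕ, 1 ≤ d → d ≤ w → w ≤ K → d ∣ qq 0 w K

/-! ## Section 6: end -/

/-- CHEB: forms without rational points but with large localised count are rare
(uses VAR, ASY, DIVQ). -/
def ChebStatement : Prop :=
  ∃ C : ℝ, 0 < C ∧ ∀ (T : ℕ) (c₀ : ℝ), 1 ≤ T → C ≤ T → 0 < c₀ → ∀ w K : ℕ, 2 * T ≤ w → w ≤ K →
    ∀ᶠ H : ℕ in atTop,
      (((box H).filter fun c => Nf (Af H) (Bf H) c = 0 ∧ c₀ * Bf H / H ≤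
        Mf (Af H) (Bf H) (qq 0 w K) ⌊(1 / (T : ℝ) ^ 2) * H * (Bf H : ℝ) ^ 3⌋₊ c).card : ℝ) ≤
        C / (T * c₀ ^ 2) * (2 * (H : ℝ) + 1) ^ 20

/-- The main statement in terms of coefficient vectors (uses CHEB, MLOW, REALEXC, PADEXC, BIGP,
POS). -/
def MainStatement : Prop :=
  Tendsto (fun H : ℕ => ((ratSet H).card : ℝ) / ((locSet H).card : ℝ)) atTop (nhds 1)

/-- TRANS: translation of the frozen statement. -/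
def TransStatement : Prop :=
  (∀ H : ℕ, ({f : MvPolynomial (Fin 4) ℤ | f.IsHomogeneous 3 ∧ (∀ m, |f.coeff m| ≤ (H : ℤ)) ∧
      ∃ x : Fin 4 → ℚ, x ≠ 0 ∧ MvPolynomial.aeval x f = 0} :
      Set (MvPolynomial (Fin 4) ℤ)).ncard = (ratSet H).card) ∧
  (∀ H : ℕ, ({f : MvPolynomial (Fin 4) ℤ | f.IsHomogeneous 3 ∧ (∀ m, |f.coeff m| ≤ (H : ℤ)) ∧
      (∃ x : Fin 4 → ℝ, x ≠ 0 ∧ MvPolynomial.aeval x f = 0) ∧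
      ∀ (p : ℕ) [Fact p.Prime], ∃ x : Fin 4 → Padic p, x ≠ 0 ∧ MvPolynomial.aeval x f = 0} :
      Set (MvPolynomial (Fin 4) ℤ)).ncard = (locSet H).card)

end

end Cub
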